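import Pool.Agent.Helper34.FB.Goals

/-! FB-SEL: selection of a minimal system of generators over a local ring. -/

namespace Pool.Agent.Helper15.FB

open IsLocalRing

universe u

private theorem sel_aux (R : Type u) [CommRing R] [IsLocalRing R] (N : ℕ) (f : Fin N → R) :
    ∃ (e s : ℕ) (σ : Fin N ≃ Fin e ⊕ Fin s) (g : Fin s → Fin e → R),
      (∀ c : Fin e → R, ∑ j, c j * f (σ.symm (Sum.inl j)) = 0 → ∀ j, c j ∈ maximalIdeal R) ∧
      ∀ a, f (σ.symm (Sum.inr a)) = ∑ j, g a j * f (σ.symm (Sum.inl j)) := by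
  classical
  have hex : ∃ n : ℕ, ∃ S : Finset (Fin N), S.card = n ∧
      ∀ i, f i ∈ Submodule.span R (f '' (S : Set (Fin N))) :=
    ⟨(Finset.univ : Finset (Fin N)).card, Finset.univ, rfl, fun i =>
      Submodule.subset_span ⟨i, by simp, rfl⟩⟩
  obtain ⟨S, hScard, hS⟩ := Nat.find_spec hex
  have hmin : ∀ T : Finset (Fin N),
      (∀ i, f i ∈ Submodule.span R (f '' (T : Set (Fin N)))) → S.card ≤ T.card := by
    intro T hT
    rw [hScard]
    exact Nat.find_min' hex ⟨T, rfl, hT⟩
  let u : Fin S.card → Fin N := fun j => S.orderEmbOfFin rfl j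
  have hu : ∀ j, u j ∈ S := fun j => S.orderEmbOfFin_mem rfl j
  have hinj : Function.Injective u := (S.orderEmbOfFin rfl).injective
  have hrange : f '' (S : Set (Fin N)) = Set.range (fun j => f (u j)) := by
    have h1 : Set.range u = (S : Set (Fin N)) := S.range_orderEmbOfFin rfl
    rw [← h1, ← Set.range_comp]
    rfl
  have hcoef : ∀ i, ∃ c : Fin S.card → R, ∑ j, c j * f (u j) = f i := by
    intro i
    have := hS i
    rw [hrange, Submodule.mem_span_range_iff_exists_fun] at this
    obtain ⟨c, hc⟩ := this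
    exact ⟨c, by simpa [smul_eq_mul] using hc⟩
  have hsyz : ∀ c : Fin S.card → R, ∑ j, c j * f (u j) = 0 → ∀ j, c j ∈ maximalIdeal R := by
    intro c hc j0
    by_contra hj0
    have hunit : IsUnit (c j0) := by
      by_contra hn
      exact hj0 ((mem_maximalIdeal _).2 hn)
    obtain ⟨v, hv⟩ := hunit
    have hmem : f (u j0) ∈ Submodule.span R (f '' ((S.erase (u j0) : Finset (Fin N)) : Set (Fin N))) := by
      have h1 : c j0 * f (u j0) + ∑ j ∈ Finset.univ.erase j0, c j * f (u j) = 0 := by
        rw [Finset.add_sum_erase _ (fun j => c j * f (u j)) (Finset.mem_univ j0)]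
        exact hc
      have h2 : f (u j0) = ∑ j ∈ Finset.univ.erase j0, (-(↑v⁻¹ * c j)) • f (u j) := by
        have h3 : c j0 * f (u j0) = - ∑ j ∈ Finset.univ.erase j0, c j * f (u j) :=
          eq_neg_of_add_eq_zero_left h1
        have h4 : f (u j0) = ↑v⁻¹ * (c j0 * f (u j0)) := by
          rw [← hv, ← mul_assoc, Units.inv_mul, one_mul]
        rw [h4, h3, mul_neg, Finset.mul_sum, ← Finset.sum_neg_distrib]
        refine Finset.sum_congr rfl fun j _ => ?_
        rw [smul_eq_mul]
        ring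
      rw [h2]
      refine Submodule.sum_mem _ fun j hj => Submodule.smul_mem _ _ (Submodule.subset_span ?_)
      refine ⟨u j, ?_, rfl⟩
      have hne : j ≠ j0 := (Finset.mem_erase.1 hj).1
      exact Finset.mem_coe.2 (Finset.mem_erase.2 ⟨fun h => hne (hinj h), hu j⟩)
    have hle : Submodule.span R (f '' (S : Set (Fin N))) ≤
        Submodule.span R (f '' ((S.erase (u j0) : Finset (Fin N)) : Set (Fin N))) := by
      rw [Submodule.span_le]
      rintro _ ⟨i, hi, rfl⟩
      by_cases hi0 : i = u j0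
      · rw [hi0]
        exact hmem
      · exact Submodule.subset_span ⟨i, Finset.mem_coe.2 (Finset.mem_erase.2 ⟨hi0, hi⟩), rfl⟩
    have hcard := hmin (S.erase (u j0)) fun i => hle (hS i)
    have hlt := Finset.card_erase_lt_of_mem (hu j0)
    omega
  choose g hg using hcoef
  let τ : Fin S.card ⊕ Fin (Sᶜ).card ≃ Fin N := finSumEquivOfFinset rfl rfl
  have hτl : ∀ j, τ (Sum.inl j) = u j := fun j => finSumEquivOfFinset_inl rfl rfl j
  refine ⟨S.card, (Sᶜ).card, τ.symm, fun a => g (τ (Sum.inr a)), ?_, ?_⟩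
  · intro c hc
    apply hsyz c
    simpa [hτl] using hc
  · intro a
    have := hg (τ (Sum.inr a))
    simp only [Equiv.symm_symm, hτl]
    exact this.symm

theorem gSEL : Pool.Agent.Helper34.FB.G_SEL.{u} := by
  intro R _ _ N f
  exact sel_aux R N f

end Pool.Agent.Helper15.FB
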